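import Mathlib

namespace Pool.Agent.Results.MP_42a2a8_gt.FinalSegments

open Set Topology

/-- The topology of upward closed subsets of the natural numbers. -/
def upTop : TopologicalSpace ℕ where
  IsOpen U := ∀ m n : ℕ, m ≤ n → m ∈ U → n ∈ U
  isOpen_univ := fun _ _ _ _ => mem_univ _
  isOpen_inter := fun _ _ hs ht m n hmn hm => ⟨hs m n hmn hm.1, ht m n hmn hm.2⟩
  isOpen_sUnion := fun _ hS m n hmn hm => by
    obtain ⟨t, ht, hmt⟩ := hm
    exact ⟨t, ht, hS t ht m n hmn hmt⟩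

theorem result :
    ∃ (X : Type) (t : TopologicalSpace X),
      T0Space X ∧ (∀ x : X, ¬ IsOpen ({x} : Set X)) ∧
      ∃ B : Set (Set X),
        (∀ V ∈ B, IsOpen V) ∧ (∀ U : Set X, IsOpen U → ∃ C ⊆ B, U = ⋃₀ C) ∧
        ¬ ∃ B0 B1 : Set (Set X), B0 ⊆ B ∧ B1 ⊆ B ∧ Disjoint B0 B1 ∧
          (∀ U : Set X, IsOpen U → ∃ C ⊆ B0, U = ⋃₀ C) ∧
          (∀ V ∈ B1, V.Nonempty) ∧
          (∀ U : Set X, IsOpen U → U.Nonempty → ∃ V ∈ B1, V ⊆ U) := by
  refine ⟨ℕ, upTop, ?_, ?_, ?_⟩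
  · refine @T0Space.mk ℕ upTop ?_
    intro x y hxy
    have h1 : ∀ U : Set ℕ, (∀ m n : ℕ, m ≤ n → m ∈ U → n ∈ U) → (x ∈ U ↔ y ∈ U) := by
      intro U hU
      exact (@inseparable_iff_forall_isOpen ℕ upTop x y).1 hxy U hU
    have h2 := (h1 (Ici x) (fun m n hmn hm => le_trans hm hmn)).1 (mem_Ici.2 le_rfl)
    have h3 := (h1 (Ici y) (fun m n hmn hm => le_trans hm hmn)).2 (mem_Ici.2 le_rfl)
    exact le_antisymm h2 h3
  · intro x hx
    have hx' : ∀ m n : ℕ, m ≤ n → m ∈ ({x} : Set ℕ) → n ∈ ({x} : Set ℕ) := hx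
    have := hx' x (x + 1) (Nat.le_succ x) rfl
    simp at this
  · refine ⟨{U | ∃ n, U = Ici n}, ?_, ?_, ?_⟩
    · rintro V ⟨n, rfl⟩
      exact (fun m k hmk hm => le_trans hm hmk : ∀ m k : ℕ, m ≤ k → m ∈ Ici n → k ∈ Ici n)
    · intro U hU
      have hU' : ∀ m n : ℕ, m ≤ n → m ∈ U → n ∈ U := hU
      refine ⟨{V | ∃ n ∈ U, V = Ici n}, ?_, ?_⟩
      · rintro V ⟨n, _, rfl⟩
        exact ⟨n, rfl⟩
      · ext x
        constructor
        · intro hx
          exact ⟨Ici x, ⟨x, hx, rfl⟩, mem_Ici.2 le_rfl⟩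
        · rintro ⟨V, ⟨n, hn, rfl⟩, hxV⟩
          exact hU' n x hxV hn
    · rintro ⟨B0, B1, hB0, hB1, hdisj, hbase, hne, hpi⟩
      have hIci : ∀ n : ℕ, Ici n ∈ B0 := by
        intro n
        obtain ⟨C, hC, hCe⟩ := hbase (Ici n)
          (fun m k hmk hm => le_trans hm hmk : ∀ m k : ℕ, m ≤ k → m ∈ Ici n → k ∈ Ici n)
        have hn : n ∈ ⋃₀ C := by rw [← hCe]; exact mem_Ici.2 le_rfl
        obtain ⟨V, hV, hnV⟩ := hn
        obtain ⟨k, hk⟩ := hB0 (hC hV)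
        have h1 : k ≤ n := by rw [hk] at hnV; exact hnV
        have h2 : V ⊆ Ici n := by rw [hCe]; exact subset_sUnion_of_mem hV
        have h3 : n ≤ k := by
          have : k ∈ V := by rw [hk]; exact mem_Ici.2 le_rfl
          exact h2 this
        have : k = n := le_antisymm h1 h3
        rw [this] at hk
        rw [← hk]
        exact hC hV
      obtain ⟨V, hV, _⟩ := hpi univ (@isOpen_univ ℕ upTop) ⟨0, trivial⟩
      obtain ⟨k, hk⟩ := hB1 hV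
      rw [hk] at hV
      exact Set.disjoint_left.1 hdisj (hIci k) hV

end Pool.Agent.Results.MP_42a2a8_gt.FinalSegments
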